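import Pool.Agent.W164.MO.Defs
import Pool.Agent.H932R4.CMO.Final

/-! `S_ML`: the mass of the composite numbers in short intervals (project MO of helper164). -/

set_option autoImplicit false

open Finset

namespace Pool.Agent.W66.MO

open Pool.Agent.W164.MO
open Pool.Agent.H932R4.CMO

lemma bw_nonneg (N n : ℕ) : 0 ≤ bw N n := by
  unfold bw
  split_ifs
  · exact Finset.prod_nonneg fun p _ => by positivity
  · exact le_rfl

lemma bw_anti {M N : ℕ} (h : M ≤ N) (n : ℕ) : bw N n ≤ bw M n := by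
  by_cases h1 : n ≠ 0 ∧ ∀ p ∈ n.primeFactors, N ≤ p
  · have h2 : n ≠ 0 ∧ ∀ p ∈ n.primeFactors, M ≤ p := ⟨h1.1, fun p hp => h.trans (h1.2 p hp)⟩
    unfold bw
    rw [if_pos h1, if_pos h2]
  · have h2 : bw N n = 0 := by
      unfold bw
      rw [if_neg h1]
    rw [h2]
    exact bw_nonneg M n

lemma bw_prime_le {N p : ℕ} (hp : p.Prime) : bw N p ≤ 1 / (Real.log p) ^ 2 := by
  unfold bw
  split_ifs
  · rw [hp.factorization, Finsupp.prod_single_index (by simp)]
    simp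
  · positivity

open Classical in
theorem ml : S_ML := by
  obtain ⟨Y₀, hY₀, hBT⟩ := bt3
  refine ⟨13, by norm_num, fun κ hκ => ?_⟩
  obtain ⟨N₁, hN₁, hT⟩ := T5_true (1 / 4) (min κ 1) (by norm_num) (by norm_num)
    (lt_min hκ one_pos)
  obtain ⟨X₁, hX₁, hT'⟩ := hT N₁ le_rfl
  refine ⟨max (max N₁ X₁) (Y₀ ^ 4), by omega, fun P₀ hP₀ X Y hX hXY hYX => ?_⟩
  have hN₁P : N₁ ≤ P₀ := le_trans (le_trans (le_max_left _ _) (le_max_left _ _)) hP₀
  have hX₁X : X₁ ≤ X := le_trans (le_trans (le_trans (le_max_right _ _) (le_max_left _ _)) hP₀) hX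
  have hY₀X : Y₀ ^ 4 ≤ X := le_trans (le_trans (le_max_right _ _) hP₀) hX
  have hX3 : 3 ≤ X := hX₁.trans hX₁X
  have hX3R : (3 : ℝ) ≤ X := by exact_mod_cast hX3
  have hX0 : (0 : ℝ) < X := by linarith
  have hlX : 0 < Real.log X := Real.log_pos (by linarith)
  have hY0 : (0 : ℝ) ≤ Y := Nat.cast_nonneg _
  have h1 := hT' X Y hX₁X hXY hYX
  have hc : ∑ n ∈ (Ioc X (X + Y)).filter (fun n : ℕ => ¬ n.Prime), bw P₀ n ≤
      min κ 1 * Y / (Real.log X) ^ 3 :=
    (Finset.sum_le_sum fun n _ => bw_anti hN₁P n).trans h1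
  have hc1 : min κ 1 * Y / (Real.log X) ^ 3 ≤ κ * Y / (Real.log X) ^ 3 := by
    apply div_le_div_of_nonneg_right _ (by positivity)
    exact mul_le_mul_of_nonneg_right (min_le_left _ _) hY0
  have hc2 : min κ 1 * Y / (Real.log X) ^ 3 ≤ Y / (Real.log X) ^ 3 := by
    apply div_le_div_of_nonneg_right _ (by positivity)
    calc min κ 1 * (Y : ℝ) ≤ 1 * Y := mul_le_mul_of_nonneg_right (min_le_right _ _) hY0
      _ = Y := one_mul _
  refine ⟨hc.trans hc1, ?_⟩
  -- the primes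
  have hYY : Y₀ ≤ Y := by
    have h2 : ((Y₀ : ℝ)) ≤ (X : ℝ) ^ (1 / 4 : ℝ) := by
      have h3 : ((Y₀ : ℝ) ^ (4 : ℕ)) ≤ X := by exact_mod_cast hY₀X
      calc (Y₀ : ℝ) = ((Y₀ : ℝ) ^ (4 : ℕ)) ^ (1 / 4 : ℝ) := by
            rw [← Real.rpow_natCast, ← Real.rpow_mul (Nat.cast_nonneg _)]
            norm_num
        _ ≤ (X : ℝ) ^ (1 / 4 : ℝ) := Real.rpow_le_rpow (by positivity) h3 (by norm_num)
    exact_mod_cast h2.trans hXY
  have hY2 : (2 : ℝ) ≤ Y := by exact_mod_cast hY₀.trans hYY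
  have hlY : 1 / 4 * Real.log X ≤ Real.log Y := by
    rw [← Real.log_rpow hX0]
    exact Real.log_le_log (Real.rpow_pos_of_pos hX0 _) hXY
  have hlY0 : 0 < Real.log Y := Real.log_pos (by linarith)
  have hB := hBT X Y hYY
  have hp : ∑ n ∈ (Ioc X (X + Y)).filter (fun n : ℕ => n.Prime), bw P₀ n ≤
      12 * Y / (Real.log X) ^ 3 := by
    calc ∑ n ∈ (Ioc X (X + Y)).filter (fun n : ℕ => n.Prime), bw P₀ n
        ≤ ∑ n ∈ (Ioc X (X + Y)).filter (fun n : ℕ => n.Prime), 1 / (Real.log X) ^ 2 := by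
          apply Finset.sum_le_sum
          intro n hn
          rw [mem_filter, mem_Ioc] at hn
          refine (bw_prime_le hn.2).trans ?_
          have h3 : Real.log X ≤ Real.log n := Real.log_le_log hX0 (by exact_mod_cast hn.1.1.le)
          apply one_div_le_one_div_of_le (by positivity)
          exact pow_le_pow_left₀ hlX.le h3 2
      _ = (((Ioc X (X + Y)).filter (fun n : ℕ => n.Prime)).card : ℝ) * (1 / (Real.log X) ^ 2) := by
          rw [Finset.sum_const, nsmul_eq_mul]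
      _ ≤ (3 * Y / Real.log Y) * (1 / (Real.log X) ^ 2) := by
          apply mul_le_mul_of_nonneg_right _ (by positivity)
          convert hB using 3
      _ ≤ (3 * Y / (1 / 4 * Real.log X)) * (1 / (Real.log X) ^ 2) := by
          apply mul_le_mul_of_nonneg_right _ (by positivity)
          exact div_le_div_of_nonneg_left (by positivity) (by positivity) hlY
      _ = 12 * Y / (Real.log X) ^ 3 := by
          field_simp
          ring
  have hsplit : ∑ n ∈ Ioc X (X + Y), bw P₀ n =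
      ∑ n ∈ (Ioc X (X + Y)).filter (fun n : ℕ => n.Prime), bw P₀ n +
      ∑ n ∈ (Ioc X (X + Y)).filter (fun n : ℕ => ¬ n.Prime), bw P₀ n :=
    (Finset.sum_filter_add_sum_filter_not _ _ _).symm
  rw [hsplit]
  have h5 : 12 * (Y : ℝ) / (Real.log X) ^ 3 + Y / (Real.log X) ^ 3 = 13 * Y / (Real.log X) ^ 3 := by
    ring
  linarith

end Pool.Agent.W66.MO
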