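import Pool.Agent.W164.MO.Defs
import Pool.Agent.W41.Sieve
import Pool.Agent.H154R3.Task469B

/-! `S_RG`: upper bound for the number of rough numbers in an interval (project MO of helper164). -/

set_option autoImplicit false

open Finset

namespace Pool.Agent.W66.MO

open Pool.Agent.W164.MO

open Classical in
theorem rg : S_RG := by
  obtain ⟨K, y0, hK, hy0, hF⟩ := Pool.Agent.W41.fund (ε := 1) one_pos
  have hy0R : (2 : ℝ) ≤ y0 := by exact_mod_cast hy0
  have hly0 : 0 < Real.log y0 := Real.log_pos (by linarith)
  refine ⟨2 * K, Real.log y0 + 2, by omega, by linarith, fun z X Y hz hzY => ?_⟩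
  have hlz : 0 < Real.log z := Real.log_pos (by linarith)
  set y : ℕ := ⌈z⌉₊ with hy
  have hzy : z ≤ y := Nat.le_ceil z
  have hyz : (y : ℝ) ≤ z ^ 2 := by
    have h1 : (y : ℝ) < z + 1 := Nat.ceil_lt_add_one (by linarith)
    nlinarith
  have hcY : (((Ioc X (X + Y)).filter (fun n => Rough z n)).card : ℝ) ≤ Y := by
    have h1 := card_filter_le (Ioc X (X + Y)) (fun n => Rough z n)
    rw [Nat.card_Ioc, Nat.add_sub_cancel_left] at h1
    exact_mod_cast h1
  rcases lt_or_ge y y0 with hlt | hge
  · refine hcY.trans ?_
    rw [le_div_iff₀ hlz, mul_comm]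
    apply mul_le_mul_of_nonneg_right _ (Nat.cast_nonneg _)
    have h1 : z ≤ y0 := hzy.trans (by exact_mod_cast hlt.le)
    have h2 : Real.log z ≤ Real.log y0 := Real.log_le_log (by linarith) h1
    linarith
  · have hyK : y ^ K ≤ Y := by
      have h1 : ((y ^ K : ℕ) : ℝ) ≤ Y := by
        push_cast
        calc (y : ℝ) ^ K ≤ (z ^ 2) ^ K := pow_le_pow_left₀ (Nat.cast_nonneg _) hyz K
          _ = z ^ (2 * K) := by rw [← pow_mul]
          _ ≤ Y := hzY
      exact_mod_cast h1
    set P : Finset ℕ := y.primesBelow with hP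
    have hPp : ∀ p ∈ P, p.Prime ∧ p ≤ y := by
      intro p hp
      rw [hP, Nat.mem_primesBelow] at hp
      exact ⟨hp.2, hp.1.le⟩
    have hρ : ∀ p ∈ P, (p - X % p) % p < p := fun p hp => Nat.mod_lt _ (hPp p hp).1.pos
    have h := hF y hge Y hyK P hPp (fun p => (p - X % p) % p) hρ
    have hV : Pool.Agent.W41.V P ≤ 1 / Real.log z := by
      have h1 : Pool.Agent.W41.V P = Pool.Agent.H154R3.Fund.VV y := rfl
      rw [h1]
      have hy2 : 2 ≤ y := by
        have : (2 : ℝ) ≤ y := hz.trans hzy
        exact_mod_cast this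
      refine (Pool.Agent.H154R3.Fund.VV_upper y hy2).trans ?_
      exact one_div_le_one_div_of_le hlz (Real.log_le_log (by linarith) hzy)
    have hV0 : 0 < Pool.Agent.W41.V P := Pool.Agent.W41.V_pos fun p hp => (hPp p hp).1
    have hcard : (((Ioc X (X + Y)).filter (fun n => Rough z n)).card : ℝ) ≤
        (((Icc 1 Y).filter (fun n : ℕ => ∀ p ∈ P, n % p ≠ (p - X % p) % p)).card : ℕ) := by
      have h1 : ((Ioc X (X + Y)).filter (fun n => Rough z n)).card ≤
          ((Icc 1 Y).filter (fun n : ℕ => ∀ p ∈ P, n % p ≠ (p - X % p) % p)).card := by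
        apply Finset.card_le_card_of_injOn (fun n => n - X)
        · intro n hn
          have hn' := Finset.mem_coe.1 hn
          rw [mem_filter, mem_Ioc] at hn'
          obtain ⟨⟨h1, h2⟩, h3⟩ := hn'
          apply Finset.mem_coe.2
          show n - X ∈ _
          rw [mem_filter, mem_Icc]
          refine ⟨⟨by omega, by omega⟩, fun p hp he => ?_⟩
          have hpp := (hPp p hp).1
          have hdvd : p ∣ n := by
            have hle : X % p ≤ p := (Nat.mod_lt _ hpp.pos).le
            have h4 : (n - X) ≡ (p - X % p) [MOD p] := by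
              show (n - X) % p = (p - X % p) % p
              exact he
            have h5 : (n - X) + X ≡ (p - X % p) + X % p [MOD p] :=
              Nat.ModEq.add h4 (Nat.mod_modEq X p).symm
            rw [Nat.sub_add_cancel h1.le, Nat.sub_add_cancel hle] at h5
            have h6 : n ≡ 0 [MOD p] := h5.trans (by simp [Nat.ModEq])
            exact (Nat.modEq_zero_iff_dvd).1 h6
          have h7 := h3 p hpp hdvd
          rw [hP, Nat.mem_primesBelow] at hp
          have h8 : p < y := hp.1
          have h9 : (p : ℝ) < z := Nat.lt_ceil.1 h8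
          linarith
        · intro a ha b hb hab
          have ha' := (mem_filter.1 (Finset.mem_coe.1 ha)).1
          have hb' := (mem_filter.1 (Finset.mem_coe.1 hb)).1
          rw [mem_Ioc] at ha' hb'
          simp only at hab
          omega
      exact_mod_cast h1
    have h2 := (abs_le.1 h).2
    have hY0 : (0 : ℝ) ≤ Y := Nat.cast_nonneg _
    calc (((Ioc X (X + Y)).filter (fun n => Rough z n)).card : ℝ) ≤ 2 * (Y * Pool.Agent.W41.V P) := by
          refine hcard.trans ?_
          linarith
      _ ≤ 2 * (Y * (1 / Real.log z)) := by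
          have := mul_le_mul_of_nonneg_left hV hY0
          linarith
      _ = 2 * Y / Real.log z := by ring
      _ ≤ (Real.log y0 + 2) * Y / Real.log z := by
          apply div_le_div_of_nonneg_right _ hlz.le
          nlinarith

end Pool.Agent.W66.MO
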